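import Mathlib

namespace Pool.Agent.Results.MP_3b8abe_co.Crit

variable {S : Type*} [Semigroup S]

/-- The product `a₀ a₁ ⋯ aₙ` of an `(n+1)`-tuple. -/
def pr : ∀ n : ℕ, (Fin (n + 1) → S) → S
  | 0, a => a 0
  | n + 1, a => pr n (Fin.init a) * a (Fin.last (n + 1))

/-- `A^h` for `h = n + 1`. -/
def pw (A : Set S) (n : ℕ) : Set S := {x | ∃ a : Fin (n + 1) → S, (∀ i, a i ∈ A) ∧ pr n a = x}

/-- `r_{S,h}(x) = ∞` for `h = n + 1`. -/
def RInf (n : ℕ) (x : S) : Prop := {a : Fin (n + 1) → S | pr n a = x}.Infinite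

/-- Asymptotically strictly decreasing sequences. -/
def ASD (A : ℕ → Set S) : Prop := (∀ q, A (q + 1) ⊆ A q) ∧ {q | A (q + 1) ≠ A q}.Infinite

/-- The intersection set `H(A_q)`. -/
def H (A : ℕ → Set S) : Set ℕ := {h | 1 ≤ h ∧ pw (⋂ q, A q) (h - 1) = ⋂ q, pw (A q) (h - 1)}

/-- Property 1. -/
def P1 (S : Type*) [Semigroup S] : Prop :=
  ∃ h₀, 1 ≤ h₀ ∧ ∀ h, h₀ ≤ h → ∃ x : S, RInf (h - 1) x

/-- Property 2: `𝐇*(S) = {ℕ₊}`. -/
def P2 (S : Type*) [Semigroup S] : Prop :=
  {K | ∃ A : ℕ → Set S, ASD A ∧ H A = K} = {{h | 1 ≤ h}}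

lemma two : ∀ (n : ℕ) (x : S), RInf n x → ∃ y : S, {p : S × S | p.1 * p.2 = y}.Infinite := by
  intro n
  induction n with
  | zero =>
    intro x hx
    refine absurd (Set.Subsingleton.finite ?_) hx
    intro a ha b hb
    funext i
    obtain rfl : i = 0 := Subsingleton.elim (α := Fin 1) _ _
    exact (show a 0 = x from ha).trans (show b 0 = x from hb).symm
  | succ n ih =>
    intro x hx
    by_contra hne
    push Not at hne
    have hf : ∀ y : S, {a : Fin (n + 1) → S | pr n a = y}.Finite := by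
      intro y
      by_contra h
      obtain ⟨z, hz⟩ := ih y h
      exact hz (hne z)
    apply hx
    have := (hne x).biUnion (t := fun p : S × S =>
      (fun a : Fin (n + 1) → S => (Fin.snoc a p.2 : Fin (n + 2) → S)) ''
        {a : Fin (n + 1) → S | pr n a = p.1}) fun p _ => (hf p.1).image _
    refine this.subset fun a ha => ?_
    simp only [Set.mem_iUnion]
    exact ⟨(pr n (Fin.init a), a (Fin.last (n + 1))), ha, Fin.init a, rfl, Fin.snoc_init_self a⟩

/-- The elements occurring in infinitely many of the tuples `τ j`. -/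
def Ker {n : ℕ} (τ : ℕ → Fin (n + 1) → S) : Set S := {z | {j | ∃ i, τ j i = z}.Infinite}

lemma up (y : S) (hy : {p : S × S | p.1 * p.2 = y}.Infinite) :
    ∀ n : ℕ, ∃ x : S, RInf (n + 1) x := by
  intro n
  induction n with
  | zero =>
    refine ⟨y, ?_⟩
    refine Set.infinite_of_injOn_mapsTo (f := fun p : S × S => (![p.1, p.2] : Fin 2 → S))
      (fun p _ q _ h => Prod.ext (congrFun h 0) (congrFun h 1)) (fun p hp => hp) hy
  | succ n ih =>
    obtain ⟨x, hx⟩ := ih
    refine ⟨x * y, Set.infinite_of_injOn_mapsTo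
      (f := fun a : Fin (n + 2) → S => (Fin.snoc a y : Fin (n + 3) → S))
      (fun a _ b _ h => by simpa using congrArg Fin.init h) (fun a ha => ?_) hx⟩
    have ha' : pr (n + 1) a = x := ha
    simp only [Set.mem_setOf_eq]
    rw [pr, Fin.init_snoc, Fin.snoc_last, ha']

lemma pw_mono {A B : Set S} (h : A ⊆ B) (n : ℕ) : pw A n ⊆ pw B n := by
  rintro x ⟨a, ha, e⟩
  exact ⟨a, fun i => h (ha i), e⟩

lemma anti {A : ℕ → Set S} (h : ∀ q, A (q + 1) ⊆ A q) : Antitone A := antitone_nat_of_succ_le h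

theorem aux (S : Type*) [Semigroup S] :
    (P1 S ∧ P2 S) ↔ ((∃ y : S, {p : S × S | p.1 * p.2 = y}.Infinite) ∧
      ∀ (n : ℕ) (x : S) (τ : ℕ → Fin (n + 1) → S), (∀ j, pr n (τ j) = x) → x ∈ pw (Ker τ) n) := by
  constructor
  · rintro ⟨⟨h₀, -, h1⟩, h2⟩
    obtain ⟨x, hx⟩ := h1 h₀ le_rfl
    refine ⟨two _ x hx, fun n x τ hτ => ?_⟩
    let A : ℕ → Set S := fun q => {z | ∃ j, q ≤ j ∧ ∃ i, τ j i = z}
    have hdec : ∀ q, A (q + 1) ⊆ A q := by
      rintro q z ⟨n, hn, h⟩
      exact ⟨n, by omega, h⟩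
    have hK : (⋂ q, A q) ⊆ Ker τ := by
      intro z hz hfin
      obtain ⟨B, hB⟩ := hfin.bddAbove
      obtain ⟨j, hj, h⟩ := Set.mem_iInter.1 hz (B + 1)
      have : j ≤ B := hB h
      omega
    have hin : ∀ q, x ∈ pw (A q) n := fun q => ⟨τ q, fun i => ⟨q, le_rfl, i, rfl⟩, hτ q⟩
    apply pw_mono hK
    by_cases hfin : {q | A (q + 1) ≠ A q}.Finite
    · obtain ⟨B, hB⟩ := hfin.bddAbove
      have hc : ∀ j, A (B + 1 + j) = A (B + 1) := by
        intro j
        induction j with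
        | zero => rfl
        | succ j ih =>
          rw [← ih]
          by_contra h
          have : B + 1 + j ≤ B := hB h
          omega
      refine pw_mono ?_ n (hin (B + 1))
      intro z hz
      refine Set.mem_iInter.2 fun q => anti hdec (show q ≤ B + 1 + q by omega) ?_
      rw [hc]; exact hz
    · have hH : H A = {h | 1 ≤ h} := by
        have : H A ∈ {K | ∃ A : ℕ → Set S, ASD A ∧ H A = K} := ⟨A, ⟨hdec, hfin⟩, rfl⟩
        rw [h2] at this; exact this
      have h22 : n + 1 ∈ H A := by rw [hH]; show 1 ≤ n + 1; omega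
      have h3 : pw (⋂ q, A q) n = ⋂ q, pw (A q) n := h22.2
      rw [h3]
      exact Set.mem_iInter.2 hin
  · rintro ⟨⟨y, hy⟩, hC⟩
    have hall : ∀ A : ℕ → Set S, ASD A → H A = {h | 1 ≤ h} := by
      intro A hA
      ext h
      refine ⟨fun hh => hh.1, fun hh => ⟨hh, Set.Subset.antisymm ?_ ?_⟩⟩
      · exact Set.subset_iInter fun q => pw_mono (Set.iInter_subset _ q) _
      · intro x hx
        choose τ h1 h2 using Set.mem_iInter.1 hx
        refine pw_mono ?_ _ (hC _ x τ h2)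
        intro z hz
        refine Set.mem_iInter.2 fun q => ?_
        obtain ⟨j, ⟨i, hi⟩, hj⟩ := Set.Infinite.exists_gt hz q
        exact anti hA.1 hj.le (hi ▸ h1 j i)
    refine ⟨⟨2, by omega, fun h hh => ?_⟩, ?_⟩
    · obtain ⟨x, hx⟩ := up y hy (h - 2)
      exact ⟨x, by rwa [show h - 1 = h - 2 + 1 by omega]⟩
    · ext K
      refine ⟨fun ⟨A, hA, e⟩ => e ▸ hall A hA, fun hK => ?_⟩
      have : Infinite S := by
        by_contra hf
        rw [not_infinite_iff_finite] at hf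
        exact hy (Set.toFinite _)
      let e := Infinite.natEmbedding S
      have hA : ASD fun q => {z | ∃ j, q ≤ j ∧ e j = z} := by
        refine ⟨?_, Set.infinite_of_forall_exists_gt fun q => ⟨q + 1, fun h => ?_, by omega⟩⟩
        · rintro q z ⟨n, hn, h⟩
          exact ⟨n, by omega, h⟩
        · have : e (q + 1) ∈ {z | ∃ j, q + 1 + 1 ≤ j ∧ e j = z} := by
            have h' : {z | ∃ j, q + 1 + 1 ≤ j ∧ e j = z} = {z | ∃ j, q + 1 ≤ j ∧ e j = z} := h
            rw [h']; exact ⟨q + 1, le_rfl, rfl⟩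
          obtain ⟨j, hj, hj'⟩ := this
          have := e.injective hj'
          omega
      exact ⟨_, hA, (hall _ hA).trans (Set.mem_singleton_iff.1 hK).symm⟩

lemma sub1 {α : Type*} (g : ℕ → α) : ∃ φ : ℕ → ℕ, StrictMono φ ∧
    ((∀ j, g (φ j) = g (φ 0)) ∨ Function.Injective fun j => g (φ j)) := by
  classical
  by_cases h : ∃ c, {j | g j = c}.Infinite
  · obtain ⟨c, hc⟩ := h
    exact ⟨Nat.nth fun j => g j = c, Nat.nth_strictMono hc, Or.inl fun j =>
      (Nat.nth_mem_of_infinite hc j).trans (Nat.nth_mem_of_infinite hc 0).symm⟩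
  · push Not at h
    have hM : {j | ∀ i < j, g i ≠ g j}.Infinite := by
      intro hf
      apply Set.infinite_univ (α := ℕ)
      refine (hf.biUnion (t := fun m => {j | g j = g m}) fun m _ => h (g m)).subset fun j _ => ?_
      simp only [Set.mem_iUnion]
      have hex : ∃ i, g i = g j := ⟨j, rfl⟩
      refine ⟨Nat.find hex, fun i hi e => Nat.find_min hex hi (e.trans (Nat.find_spec hex)),
        (Nat.find_spec hex).symm⟩
    refine ⟨Nat.nth fun j => ∀ i < j, g i ≠ g j, Nat.nth_strictMono hM, Or.inr fun a b e => ?_⟩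
    by_contra hab
    rcases lt_or_gt_of_ne hab with h' | h'
    · exact Nat.nth_mem_of_infinite hM b _ (Nat.nth_strictMono hM h') e
    · exact Nat.nth_mem_of_infinite hM a _ (Nat.nth_strictMono hM h') e.symm

lemma subk {α ι : Type*} (τ : ℕ → ι → α) (s : Finset ι) : ∃ φ : ℕ → ℕ, StrictMono φ ∧
    ∀ i ∈ s, (∀ j, τ (φ j) i = τ (φ 0) i) ∨ Function.Injective fun j => τ (φ j) i := by
  classical
  induction s using Finset.induction_on with
  | empty => exact ⟨id, strictMono_id, by simp⟩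
  | insert a s _ ih =>
    obtain ⟨φ, hφ, h⟩ := ih
    obtain ⟨ψ, hψ, h'⟩ := sub1 fun j => τ (φ j) a
    refine ⟨φ ∘ ψ, hφ.comp hψ, fun i hi => ?_⟩
    rcases Finset.mem_insert.1 hi with rfl | hi
    · exact h'
    · rcases h i hi with h | h
      · exact Or.inl fun j => (h _).trans (h _).symm
      · exact Or.inr (h.comp hψ.injective)

theorem result (S : Type*) [Semigroup S] :
    (P1 S ∧ P2 S) ↔ ((∃ y : S, {p : S × S | p.1 * p.2 = y}.Infinite) ∧
      ∀ (n : ℕ) (x : S) (τ : ℕ → Fin (n + 1) → S), (∀ j, pr n (τ j) = x) →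
        (∀ i, (∀ j, τ j i = τ 0 i) ∨ Function.Injective fun j => τ j i) →
        x ∈ pw {z | ∃ i, ∀ j, τ j i = z} n) := by
  rw [aux]
  refine and_congr_right fun _ => ⟨fun hC n x τ hτ hd => ?_, fun hC n x τ hτ => ?_⟩
  · refine pw_mono ?_ n (hC n x τ hτ)
    intro z hz
    by_contra hn
    apply hz
    have : {j | ∃ i, τ j i = z} = ⋃ i, {j | τ j i = z} := by ext j; simp
    rw [this]
    refine Set.finite_iUnion fun i => Set.Subsingleton.finite fun a ha b hb => ?_
    rcases hd i with h | h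
    · exact absurd ⟨i, fun j => (h j).trans ((h a).symm.trans ha)⟩ hn
    · exact h ((show τ a i = z from ha).trans (show τ b i = z from hb).symm)
  · obtain ⟨φ, hφ, h⟩ := subk τ Finset.univ
    refine pw_mono ?_ n (hC n x (fun j => τ (φ j)) (fun j => hτ _) fun i => h i (Finset.mem_univ i))
    rintro z ⟨i, hi⟩
    exact Set.infinite_of_injective_forall_mem hφ.injective fun j => ⟨i, hi j⟩

end Pool.Agent.Results.MP_3b8abe_co.Crit
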